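import Pool.Agent.P.MP_32bf8a_an.SP.Small

/-!
The measurement matrix: a row of ones and rows of a Cauchy matrix.
-/

open Polynomial Finset Complex Filter Topology
open scoped ComplexConjugate

namespace Pool.Agent.P.MP_32bf8a_an.SP

theorem key {A B w : ℂ} (h : ‖A‖ = ‖B‖) (α β : ℝ) :
    conj (w * (α * (A + B))) * (w * (β * (A - B))) +
      w * (α * (A + B)) * conj (w * (β * (A - B))) = 0 := by
  have e : conj A * A = conj B * B := by rw [conj_mul', conj_mul', h]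
  simp only [map_mul, map_add, map_sub, conj_ofReal]
  linear_combination 2 * α * β * conj w * w * e

variable {ι : Type} [DecidableEq ι] [Fintype ι] {g : ι → ℝ} {S T : Finset ι} {y : ℂ} {D : ℕ}

/-- The Cauchy row at `ξ` does not separate `x` and `z`. -/
def Eqm (g : ι → ℝ) (x z : ι → ℂ) (ξ : ℂ) : Prop :=
  (∀ a, ξ ≠ g a) ∧ ‖∑ a, (ξ - g a)⁻¹ * x a‖ = ‖∑ a, (ξ - g a)⁻¹ * z a‖

theorem coll {x z : ι → ℂ} {τ : ℝ} (t0 : τ ≠ 0) (hx : ∀ a ∉ S, x a = 0) (hz : ∀ a ∉ T, z a = 0)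
    (hne : x ≠ z) (hle : ‖x - z‖ ≤ ‖x + z‖) (im : (∑ a, conj (x a) * z a).im = 0)
    (h1 : ∀ j < 2 * D + 1, Eqm g x z ((τ * j : ℝ) : ℂ))
    (h2 : ∀ j < 2 * D, Eqm g x z (y * ((τ * j : ℝ) : ℂ))) (h3 : ‖∑ a, x a‖ = ‖∑ a, z a‖) :
    ∃ κ ∈ Metric.sphere (0 : ι → ℂ) 1 ×ˢ Metric.sphere (0 : ι → ℂ) 1 ×ˢ Set.Icc (0 : ℝ) 1,
      Cond g y D S T τ κ.1 κ.2.1 κ.2.2 := by
  have q0 : 0 < ‖x - z‖ := norm_pos_iff.2 (sub_ne_zero.2 hne)
  have p0 : 0 < ‖x + z‖ := q0.trans_le hle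
  have q1 := ofReal_ne_zero.2 q0.ne'
  have p1 := ofReal_ne_zero.2 p0.ne'
  have hU : ∀ (w : ι → ℂ) {u : ι → ℂ}, (∀ a ∉ S ∪ T, u a = 0) →
      ∑ a ∈ S ∪ T, w a * u a = ∑ a, w a * u a := fun w u h =>
    sum_subset (subset_univ _) fun a _ ha => by rw [h a ha, mul_zero]
  have s0 : ∀ a ∉ S ∪ T, (((‖x + z‖⁻¹ : ℝ) : ℂ) • (x + z)) a = 0 := fun a ha => by
    simp [hx a (notMem_union.1 ha).1, hz a (notMem_union.1 ha).2]
  have v0 : ∀ a ∉ S ∪ T, (((‖x - z‖⁻¹ : ℝ) : ℂ) • (x - z)) a = 0 := fun a ha => by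
    simp [hx a (notMem_union.1 ha).1, hz a (notMem_union.1 ha).2]
  have e1 : ∀ (w : ι → ℂ) (α : ℂ), ∑ a, w a * (α • (x + z)) a =
      α * (∑ a, w a * x a + ∑ a, w a * z a) := fun w α => by
    simp only [Pi.smul_apply, Pi.add_apply, smul_eq_mul, ← sum_add_distrib, mul_sum]
    exact sum_congr rfl fun a _ => by ring
  have e2 : ∀ (w : ι → ℂ) (α : ℂ), ∑ a, w a * (α • (x - z)) a =
      α * (∑ a, w a * x a - ∑ a, w a * z a) := fun w α => by
    simp only [Pi.smul_apply, Pi.sub_apply, smul_eq_mul, ← sum_sub_distrib, mul_sum]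
    exact sum_congr rfl fun a _ => by ring
  refine ⟨(((‖x + z‖⁻¹ : ℝ) : ℂ) • (x + z), ((‖x - z‖⁻¹ : ℝ) : ℂ) • (x - z), ‖x - z‖ / ‖x + z‖),
    ⟨by simp [-smul_add, norm_smul, p0.ne'], by simp [norm_smul, q0.ne'], by positivity,
      (div_le_one p0).2 hle⟩, t0, by positivity, fun a j hj e => (h1 j hj).1 a (by rw [e]), s0, v0,
    fun a ha => ?_, ?_, fun j hj => ?_, fun j hj => ?_, ?_⟩
  · simp only [Pi.smul_apply, Pi.add_apply, Pi.sub_apply, smul_eq_mul, sg, ofReal_inv, ofReal_div]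
    split_ifs with h
    · rw [hz a (mem_sdiff.1 h).2]
      field_simp
      ring
    · rw [hx a (mem_sdiff.1 ((mem_union.1 ha).resolve_left h)).2]
      field_simp
      ring
  · rw [im_sum] at im ⊢
    rw [← mul_zero (-2 * ‖x + z‖⁻¹ * ‖x - z‖⁻¹), ← im, mul_sum]
    refine sum_congr rfl fun a _ => ?_
    simp only [Pi.smul_apply, Pi.add_apply, Pi.sub_apply, smul_eq_mul, mul_im, mul_re, conj_re,
      conj_im, ofReal_re, ofReal_im, add_re, add_im, sub_re, sub_im]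
    ring
  · rw [Hm_eval, Nn_eval _ (h1 j hj).1, Nn_eval _ (h1 j hj).1, hU _ s0, hU _ v0, e1, e2]
    exact key (h1 j hj).2 _ _
  · have e : ∀ p : ℂ[X], (ray y p).eval ((τ * j : ℝ) : ℂ) = p.eval (y * ((τ * j : ℝ) : ℂ)) :=
      fun p => by simp [ray, eval_comp]
    rw [Hm_eval, e, e, Nn_eval _ (h2 j hj).1, Nn_eval _ (h2 j hj).1, hU _ s0, hU _ v0, e1, e2]
    exact key (h2 j hj).2 _ _
  · have e3 := hU 1 s0
    have e4 := hU 1 v0
    rw [e1] at e3
    rw [e2] at e4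
    simp only [Pi.one_apply, one_mul] at e3 e4
    have e5 := congrArg re (key (w := 1) h3 ‖x + z‖⁻¹ ‖x - z‖⁻¹)
    rw [one_mul, one_mul, ← e3, ← e4] at e5
    simp only [add_re, mul_re, conj_re, conj_im, zero_re] at e5 ⊢
    linarith

theorem rows {n D : ℕ} (hD : 0 < D) (hn : D + 1 ≤ n) : ∃ A : ℕ → Fin n → ℂ,
    (∀ x z : Fin n → ℂ, #{a | x a ≠ 0} ≤ D + 1 → #{a | z a ≠ 0} ≤ D + 1 →
      (∀ j < 4 * D + 1, ‖∑ a, A j a * x a‖ = ‖∑ a, A j a * z a‖) → ∃ c : ℂ, ‖c‖ = 1 ∧ x = c • z) ∧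
    ∀ N, 4 * D < N → n ≤ N → ∀ x : Fin n → ℂ, (∀ j < N, ∑ a, A j a * x a = 0) → x = 0 := by
  obtain ⟨g, hg, h0, h⟩ := exists_nodes n
  obtain ⟨y, hy⟩ : ∃ y, Ry y D := ⟨exp ((1 / (2 * D + 1) : ℝ) * I), fun j h1 h2 => by
    have h3 : (j : ℝ) ≤ 2 * D := by exact_mod_cast h2
    rw [← exp_nat_mul, ← mul_assoc, ← ofReal_natCast, ← ofReal_mul, exp_ofReal_mul_I_im]
    exact (Real.sin_pos_of_pos_of_le_two (by positivity) (by
      rw [mul_one_div, div_le_iff₀ (by positivity)]; linarith)).ne'⟩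
  have y0 : y.im ≠ 0 := by simpa using hy 1 one_pos (by omega)
  have h1 : ∀ᶠ τ in 𝓝 (0 : ℝ), ∀ a, ∀ j ∈ range (2 * D + 1), τ * (j : ℕ) ≠ g a :=
    eventually_all.2 fun a => (eventually_all_finset _).2 fun j _ =>
      ContinuousAt.eventually_ne (by fun_prop) (by simpa using (h0 a).symm)
  have h2 := eventually_all.2 fun S => eventually_all.2 fun T =>
    eventually_all.2 fun hS => eventually_all.2 fun hT => small (S := S) (T := T) hg h0 h hy hS hT
  obtain ⟨τ, ⟨h3, h4⟩, t0⟩ :=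
    (((h1.and h2).filter_mono nhdsWithin_le_nhds).and (self_mem_nhdsWithin (s := {0}ᶜ))).exists
  replace t0 : τ ≠ 0 := t0
  let ζ : ℕ → ℂ := fun j => if j ≤ 2 * D then (τ * j : ℝ) else y * (τ * (j - 2 * D : ℕ) : ℝ)
  have z1 : ∀ j, ¬ j ≤ 2 * D → (ζ j).im ≠ 0 := fun j hj => by
    simp [ζ, hj, y0, t0, show j - 2 * D ≠ 0 by omega]
  have z2 : ∀ j a, ζ j ≠ g a := fun j a e => by
    by_cases hj : j ≤ 2 * D
    · exact h3 a j (mem_range.2 (by omega)) (ofReal_injective ((if_pos hj).symm.trans e))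
    · exact z1 j hj (by rw [e, ofReal_im])
  refine ⟨fun j a => if j = 4 * D then 1 else (ζ j - g a)⁻¹, fun x z hx hz hr => ?_,
    fun N hN hn' x hx => ?_⟩
  · by_contra hc
    obtain ⟨S, hS, -, hS'⟩ := exists_subsuperset_card_eq (subset_univ _) hx (by simpa using hn)
    obtain ⟨T, hT, -, hT'⟩ := exists_subsuperset_card_eq (subset_univ _) hz (by simpa using hn)
    obtain ⟨c, c1, c2, c3⟩ : ∃ c : ℂ, ‖c‖ = 1 ∧ (c * ∑ a, conj (x a) * z a).im = 0 ∧
        ‖x - c • z‖ ≤ ‖x + c • z‖ := by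
      obtain ⟨c, c1, c2⟩ := exists_norm_eq_mul_self (∑ a, conj (x a) * z a)
      rcases le_total ‖x - c • z‖ ‖x + c • z‖ with h | h
      · exact ⟨c, c1, by rw [← c2, ofReal_im], h⟩
      · exact ⟨-c, by simpa, by rw [neg_mul, ← c2, neg_im, ofReal_im, neg_zero], by
          rwa [neg_smul, sub_neg_eq_add, ← sub_eq_add_neg]⟩
    have e : ∀ w : Fin n → ℂ, ‖∑ a, w a * (c • z) a‖ = ‖∑ a, w a * z a‖ := fun w => by
      simp only [Pi.smul_apply, smul_eq_mul, mul_left_comm _ c, ← mul_sum, norm_mul, c1, one_mul]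
    have e1 : ∀ j < 4 * D, Eqm g x (c • z) (ζ j) := fun j hj => ⟨z2 j, by
      simpa only [e, if_neg hj.ne] using hr j (by omega)⟩
    have e2 : ∀ j < 2 * D, Eqm g x (c • z) (y * ((τ * j : ℝ) : ℂ)) := by
      rintro (_ | j) hj
      · simpa [ζ] using e1 0 (by omega)
      · simpa only [ζ, if_neg (show ¬ 2 * D + (j + 1) ≤ 2 * D by omega), Nat.add_sub_cancel_left]
          using e1 (2 * D + (j + 1)) (by omega)
    obtain ⟨κ, k1, k2⟩ := coll (S := S) (T := T) t0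
      (fun a ha => by_contra fun h => ha (hS (by simpa using h)))
      (fun a ha => by_contra fun h => ha (hT (by simpa using right_ne_zero_of_mul h)))
      (fun e => hc ⟨c, c1, e⟩) c3
      (by simpa only [Pi.smul_apply, smul_eq_mul, mul_left_comm _ c, ← mul_sum] using c2)
      (fun j hj => by simpa only [ζ, if_pos (Nat.le_of_lt_succ hj)] using e1 j (by omega)) e2
      (by simpa [← mul_sum, c1] using hr (4 * D) (by omega))
    exact h4 S T hS' hT' κ k1 k2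
  · obtain ⟨m, rfl⟩ : ∃ m, n = m + 1 := ⟨n - 1, by omega⟩
    obtain ⟨d1, d2⟩ := Nn_deg (g := g) (U := univ) (m := m) x (by simp)
    refine Nn_zero (U := univ) hg (eq_zero_of_degree_lt_of_eval_index_eq_zero
      ((range N).erase (4 * D)) (v := ζ) (fun i _ j _ e => ?_) ((degree_lt_of_coeff (m := m)
        (degree_le_natDegree.trans_lt (by exact_mod_cast Nat.lt_succ_of_le d1))
        (by simpa [d2] using hx (4 * D) hN)).trans_le (by
          rw [card_erase_of_mem (mem_range.2 hN), card_range]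
          exact_mod_cast (by omega))) fun j hj => ?_) (by simp)
    · by_cases hi : i ≤ 2 * D <;> by_cases hj : j ≤ 2 * D
      · simpa [ζ, hi, hj, t0] using e
      · exact (z1 j hj (by rw [← e]; simp [ζ, hi])).elim
      · exact (z1 i hi (by rw [e]; simp [ζ, hj])).elim
      · have : i - 2 * D = j - 2 * D := by
          simpa [ζ, hi, hj, t0, show y ≠ 0 from fun e => y0 (by simp [e])] using e
        omega
    · have := hx j (mem_range.1 (mem_erase.1 hj).2)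
      simp only [if_neg (mem_erase.1 hj).1] at this
      rw [Nn_eval _ (z2 j), this, mul_zero]

end Pool.Agent.P.MP_32bf8a_an.SP
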