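import Pool.Agent.P.MP_32bf8a_an.SP.Pade

/-!
Pairs of polynomials whose Hermitian product vanishes to high order at zero along two rays.
-/

open Polynomial Finset Complex
open scoped ComplexConjugate

namespace Pool.Agent.P.MP_32bf8a_an.SP

/-- Conjugation of the coefficients. -/
noncomputable def cj : ℂ[X] →+* ℂ[X] := mapRingHom (starRingEnd ℂ)

/-- The Hermitian product. -/
noncomputable def Hm (s v : ℂ[X]) : ℂ[X] := cj s * v + s * cj v

/-- Restriction to the line through `y`. -/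
noncomputable def ray (y : ℂ) : ℂ[X] →+* ℂ[X] := compRingHom (C y * X)

/-- The vanishing conditions at zero. -/
def Jt (y : ℂ) (D : ℕ) (s v : ℂ[X]) : Prop :=
  X ^ (2 * D + 1) ∣ Hm s v ∧ X ^ (2 * D) ∣ Hm (ray y s) (ray y v)

/-- The small powers of `y` are not real. -/
def Ry (y : ℂ) (D : ℕ) : Prop := ∀ j, 0 < j → j ≤ 2 * D → (y ^ j).im ≠ 0

@[simp] theorem cj_X : cj X = X := map_X _
@[simp] theorem cj_C (a : ℂ) : cj (C a) = C (conj a) := map_C _
@[simp] theorem coeff_cj (p : ℂ[X]) (n : ℕ) : (cj p).coeff n = conj (p.coeff n) := coeff_map _ _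
@[simp] theorem ray_X (y : ℂ) : ray y X = C y * X := X_comp
@[simp] theorem ray_C (y a : ℂ) : ray y (C a) = C a := C_comp
@[simp] theorem coeff_ray (y : ℂ) (p : ℂ[X]) (n : ℕ) : (ray y p).coeff n = p.coeff n * y ^ n :=
  comp_C_mul_X_coeff

variable {y : ℂ} {D : ℕ} {s v : ℂ[X]}

theorem exists_ord {p : ℂ[X]} (h : p ≠ 0) : ∃ e q, p = X ^ e * q ∧ q.coeff 0 ≠ 0 := by
  obtain ⟨q, h1, h2⟩ := exists_eq_pow_rootMultiplicity_mul_and_not_dvd p h 0
  rw [C_0, sub_zero] at h1 h2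
  exact ⟨_, q, h1, fun e => h2 (X_dvd_iff.2 e)⟩

theorem low {M e f : ℕ} (h : X ^ M ∣ Hm (X ^ e * s) (X ^ f * v)) (hM : e + f < M) :
    (conj (s.coeff 0) * v.coeff 0).re = 0 := by
  have h1 : Hm (X ^ e * s) (X ^ f * v) = X ^ (e + f) * Hm s v := by
    simp only [Hm, map_mul, map_pow, cj_X]; ring
  have h2 := X_pow_dvd_iff.1 h _ hM
  rw [h1, coeff_X_pow_mul', if_pos le_rfl, Nat.sub_self] at h2
  have h3 := congrArg re h2
  simp [Hm] at h3 ⊢
  linarith

theorem Jt.symm (h : Jt y D s v) : Jt y D v s := by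
  have e : ∀ s v, Hm v s = Hm s v := fun s v => by simp only [Hm]; ring
  exact ⟨e s v ▸ h.1, e (ray y s) (ray y v) ▸ h.2⟩

theorem Jt.ord (hy : Ry y D) {e f : ℕ} (h : Jt y D (X ^ e * s) (X ^ f * v)) (hs : s.coeff 0 ≠ 0)
    (hv : v.coeff 0 ≠ 0) (hn : e ≠ f) : 2 * D ≤ e + f := by
  wlog hl : e < f generalizing e f s v
  · have := this h.symm hv hs hn.symm (by omega)
    omega
  obtain ⟨j, rfl⟩ := Nat.exists_eq_add_of_le hl.le
  by_contra hc
  have h1 := low h.1 (by omega)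
  have h2 := h.2
  have k : ∀ (e : ℕ) (s : ℂ[X]), ray y (X ^ e * s) = X ^ e * (C (y ^ e) * ray y s) := fun e s => by
    rw [map_mul, map_pow, ray_X, C_pow]; ring
  rw [k, k] at h2
  have h3 := low h2 (by omega)
  have h4 := hy j (by omega) (by omega)
  have h5 : y ≠ 0 := by
    rintro rfl
    simp [show j ≠ 0 by omega] at h4
  have h6 : conj (s.coeff 0) * v.coeff 0 ≠ 0 := mul_ne_zero (by simpa) hv
  have h7 : conj ((C (y ^ e) * ray y s).coeff 0) * (C (y ^ (e + j)) * ray y v).coeff 0 =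
      normSq (y ^ e) * (conj (s.coeff 0) * v.coeff 0 * y ^ j) := by
    rw [normSq_eq_conj_mul_self, coeff_C_mul, coeff_C_mul, coeff_ray, coeff_ray, map_mul,
      pow_zero, mul_one, pow_add]
    ring
  rw [h7, re_ofReal_mul, mul_re _ (y ^ j), h1, zero_mul, zero_sub, mul_eq_zero, neg_eq_zero,
    mul_eq_zero] at h3
  exact h6 (Complex.ext h1 ((h3.resolve_left (by simp [h5])).resolve_right h4))

theorem Jt.down (hy : y ≠ 0) (h : Jt y (D + 1) (X * s) (X * v)) : Jt y D s v := by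
  obtain ⟨h1, h2⟩ := h
  have e1 : Hm (X * s) (X * v) = X ^ 2 * Hm s v := by simp only [Hm, map_mul, cj_X]; ring
  have e2 : Hm (ray y (X * s)) (ray y (X * v)) =
      X ^ 2 * (C (conj y * y) * Hm (ray y s) (ray y v)) := by
    simp only [Hm, map_mul, cj_X, cj_C, ray_X]; ring
  rw [e1, show 2 * (D + 1) + 1 = 2 + (2 * D + 1) by ring, pow_add,
    mul_dvd_mul_iff_left (pow_ne_zero _ X_ne_zero)] at h1
  rw [e2, show 2 * (D + 1) = 2 + 2 * D by ring, pow_add,
    mul_dvd_mul_iff_left (pow_ne_zero _ X_ne_zero),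
    (isUnit_C.2 (mul_ne_zero (by simpa) hy).isUnit).dvd_mul_left] at h2
  exact ⟨h1, h2⟩

theorem Jt.shear (h : Jt y D s v) (c : ℝ) : Jt y D s (v - C (I * c) * s) := by
  have e : ∀ s v, Hm s (v - C (I * c) * s) = Hm s v := fun s v => by
    simp only [Hm, map_mul, map_sub, cj_C, conj_I, conj_ofReal, C_neg]; ring
  exact ⟨(e s v).symm ▸ h.1, by rw [map_sub, map_mul, ray_C, e]; exact h.2⟩

theorem Jt.smul (h : Jt y D s v) (a b : ℝ) : Jt y D (C (a : ℂ) * s) (C (b : ℂ) * v) := by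
  have e : ∀ s v, Hm (C (a : ℂ) * s) (C (b : ℂ) * v) = C (a : ℂ) * C (b : ℂ) * Hm s v :=
    fun s v => by simp only [Hm, map_mul, cj_C, conj_ofReal]; ring
  exact ⟨(e s v).symm ▸ h.1.mul_left _, by
    rw [map_mul, map_mul, ray_C, ray_C, e]; exact h.2.mul_left _⟩

theorem Jt.phase {P Q : ℂ[X]} (h : Jt y D (P + Q) (P - Q)) {a b : ℂ} (ha : ‖a‖ = 1)
    (hb : ‖b‖ = 1) : Jt y D (C a * P + C b * Q) (C a * P - C b * Q) := by
  have k : ∀ a : ℂ, ‖a‖ = 1 → C (conj a) * C a = 1 := fun a ha => by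
    rw [← C_mul, conj_mul', ha]; simp
  have e : ∀ P Q, Hm (C a * P + C b * Q) (C a * P - C b * Q) = Hm (P + Q) (P - Q) := fun P Q => by
    simp only [Hm, map_mul, map_add, map_sub, cj_C]
    linear_combination 2 * cj P * P * k a ha - 2 * cj Q * Q * k b hb
  exact ⟨(e P Q).symm ▸ h.1, by simpa only [map_add, map_sub, map_mul, ray_C, e] using h.2⟩

theorem natDegree_le_of_lt {c : ℂ[X]} {m : ℕ} (h : c.degree < (m + 1 : ℕ)) : c.natDegree ≤ m :=
  natDegree_le_iff_coeff_eq_zero.2 fun _ hj => (degree_lt_iff_coeff_zero _ _).1 h _ hj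

theorem top_coeff {B c : ℂ[X]} (hB : B.Monic) {m : ℕ} (hc : c.degree < (m + 1 : ℕ)) :
    (B * c).coeff (B.natDegree + m) = c.coeff m := by
  rw [coeff_mul_add_eq_of_natDegree_le le_rfl (natDegree_le_of_lt hc), hB.coeff_natDegree, one_mul]

/-- Two real monic polynomials of the same degree without a root at zero. -/
structure Pa (BS BT : ℂ[X]) : Prop where
  rs : cj BS = BS
  rt : cj BT = BT
  zs : BS.coeff 0 ≠ 0
  zt : BT.coeff 0 ≠ 0
  ms : BS.Monic
  mt : BT.Monic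
  dg : BS.natDegree = BT.natDegree

variable {BS BT c a : ℂ[X]}

theorem Sg.le (h : Sg BS BT) (hp : Pa BS BT) {m : ℕ} (hc : c.degree < (m + 1 : ℕ))
    (ha : a.degree < (m + 1 : ℕ)) (hd : X ^ (2 * m + 1) ∣ BT * c - BS * a) :
    ‖a.coeff m‖ ≤ ‖c.coeff m‖ ∧ (BT * c - BS * a ≠ 0 → ‖a.coeff m‖ < ‖c.coeff m‖) := by
  rcases h m c a hc ha hd with e | e
  · exact ⟨by rw [← top_coeff hp.mt hc, ← top_coeff hp.ms ha, e, hp.dg],
      fun h => absurd (sub_eq_zero.2 e) h⟩
  · exact ⟨e.le, fun _ => e⟩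

theorem degree_cj {m : ℕ} (hc : c.degree < m) : (cj c).degree < m := by
  rw [degree_lt_iff_coeff_zero] at hc ⊢
  exact fun j hj => by simp [hc j hj]

theorem degree_down {m : ℕ} (hc : degree (X * c) < ↑(m + 1)) : c.degree < m := by
  rw [degree_lt_iff_coeff_zero] at hc ⊢
  exact fun j hj => by simpa using hc (j + 1) (by omega)

theorem core (h : Sg BS BT) (hp : Pa BS BT) (hy : Ry y D) (hc : c.degree < (D + 1 : ℕ))
    (ha : a.degree < (D + 1 : ℕ)) {r : ℝ} (hr : r ≠ 0) (h1 : (BT * c).coeff 0 = r)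
    (h2 : (BS * a).coeff 0 = r) (hj : Jt y D (BT * c + BS * a) (BT * c - BS * a))
    (hn : BT * c - BS * a ≠ 0) : ‖a.coeff D‖ < ‖c.coeff D‖ := by
  obtain ⟨f, W, e, hW⟩ := exists_ord hn
  have h3 : (BT * c + BS * a).coeff 0 = (2 * r : ℝ) := by rw [coeff_add, h1, h2]; push_cast; ring
  have h4 : 2 * D ≤ 0 + f := Jt.ord hy (s := BT * c + BS * a) (v := W) (by simpa [← e] using hj)
    (by simpa [h3] using hr) hW (by
      rintro rfl
      rw [pow_zero, one_mul] at e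
      exact hW (by rw [← e, coeff_sub, h1, h2, sub_self]))
  obtain ⟨V, hV⟩ : X ^ (2 * D) ∣ BT * c - BS * a := e ▸ (pow_dvd_pow _ (by omega)).mul_right _
  have h5 := low (s := BT * c + BS * a) (v := V) (e := 0) (f := 2 * D)
    (by simpa [← hV] using hj.1) (by omega)
  rw [h3, conj_ofReal, re_ofReal_mul, mul_eq_zero] at h5
  have hV' : BT * cj c - BS * cj a = X ^ (2 * D) * cj V := by
    simpa [hp.rs, hp.rt] using congrArg cj hV
  have k : ∀ {c : ℂ[X]} {m : ℕ}, c.degree < m → (c + cj c).degree < m ∧ (c - cj c).degree < m :=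
    fun hc => ⟨(degree_add_le _ _).trans_lt (max_lt hc (degree_cj hc)),
      (degree_sub_le _ _).trans_lt (max_lt hc (degree_cj hc))⟩
  have A := h.le hp (k hc).1 (k ha).1 (by
    rw [show BT * (c + cj c) - BS * (a + cj a) = X ^ (2 * D) * (V + cj V) by
      linear_combination hV + hV', pow_succ]
    exact mul_dvd_mul_left _ (X_dvd_iff.2 (by
      simp [add_conj, h5.resolve_left (by simpa using hr)])))
  have z : ∀ {B c : ℂ[X]}, cj B = B → B.coeff 0 ≠ 0 → (B * c).coeff 0 = r →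
      (c - cj c).coeff 0 = 0 := fun {B c} e1 e2 e3 => by
    have e4 : (cj (B * c)).coeff 0 = r := by rw [coeff_cj, e3, conj_ofReal]
    rw [map_mul, e1] at e4
    refine (mul_eq_zero.1 ?_).resolve_left e2
    rw [← mul_coeff_zero, mul_sub, coeff_sub, e3, e4, sub_self]
  have zc := z hp.rt hp.zt h1
  have za := z hp.rs hp.zs h2
  have B : ‖(a - cj a).coeff D‖ ≤ ‖(c - cj c).coeff D‖ ∧
      (BT * (c - cj c) - BS * (a - cj a) ≠ 0 → ‖(a - cj a).coeff D‖ < ‖(c - cj c).coeff D‖) := by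
    rcases D with _ | m
    · rw [degree_eq_bot.1 (Nat.WithBot.lt_zero_iff.1 (degree_lt_of_coeff (k hc).2 zc)),
        degree_eq_bot.1 (Nat.WithBot.lt_zero_iff.1 (degree_lt_of_coeff (k ha).2 za))]
      simp
    · obtain ⟨c', e1⟩ := X_dvd_iff.2 zc
      obtain ⟨a', e2⟩ := X_dvd_iff.2 za
      have e3 : X * (BT * c' - BS * a') = X * (X ^ (2 * m + 1) * (V - cj V)) := by
        linear_combination hV - hV' - BT * e1 + BS * e2
      have := h.le hp (degree_down (e1 ▸ (k hc).2)) (degree_down (e2 ▸ (k ha).2))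
        ⟨_, mul_left_cancel₀ X_ne_zero e3⟩
      rw [e1, e2, coeff_X_mul, coeff_X_mul]
      exact ⟨this.1, fun h => this.2 fun h' => h (by linear_combination X * h')⟩
  simp only [coeff_add, coeff_sub, coeff_cj, add_conj, sub_conj, norm_mul, norm_real, norm_I,
    Real.norm_eq_abs, mul_one, abs_two] at A B
  rw [← sq_lt_sq₀ (norm_nonneg _) (norm_nonneg _), Complex.sq_norm, Complex.sq_norm, normSq_apply,
    normSq_apply]
  have A1 := abs_le_iff_mul_self_le.1 (le_of_mul_le_mul_left A.1 two_pos)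
  have B1 := abs_le_iff_mul_self_le.1 (le_of_mul_le_mul_left B.1 two_pos)
  by_cases h6 : BT * (c + cj c) - BS * (a + cj a) = 0
  · have := abs_lt_iff_mul_self_lt.1 (lt_of_mul_lt_mul_left (B.2 fun h7 => hn
      (mul_left_cancel₀ two_ne_zero (by linear_combination h6 + h7))) zero_le_two)
    linarith
  · have := abs_lt_iff_mul_self_lt.1 (lt_of_mul_lt_mul_left (A.2 h6) zero_le_two)
    linarith

theorem pos (h : Sg BS BT) (hp : Pa BS BT) (hy : Ry y D) (hc : c.degree < (D + 1 : ℕ))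
    (ha : a.degree < (D + 1 : ℕ)) (hj : Jt y D (BT * c + BS * a) (BT * c - BS * a))
    (hn : ∀ ω : ℂ, ‖ω‖ = 1 → BT * c ≠ C ω * (BS * a)) : ‖a.coeff D‖ < ‖c.coeff D‖ := by
  induction' hD : D with m ih generalizing D c a
  all_goals
    subst hD
    have h1 := congrArg re (X_pow_dvd_iff.1 hj.1 0 (by omega))
    have h2 : ‖(BT * c).coeff 0‖ = ‖(BS * a).coeff 0‖ := by
      rw [← sq_eq_sq₀ (norm_nonneg _) (norm_nonneg _), Complex.sq_norm, Complex.sq_norm,
        normSq_apply, normSq_apply]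
      generalize BT * c = P at *
      generalize BS * a = Q at *
      simp [Hm] at h1
      linarith
    by_cases h3 : ‖(BT * c).coeff 0‖ = 0
    swap
    · obtain ⟨u, hu, e1⟩ := exists_norm_eq_mul_self ((BT * c).coeff 0)
      obtain ⟨w, hw, e2⟩ := exists_norm_eq_mul_self ((BS * a).coeff 0)
      have u0 : u ≠ 0 := fun e => by simp [e] at hu
      have w0 : w ≠ 0 := fun e => by simp [e] at hw
      have := core (c := C u * c) (a := C w * a) h hp hy (by rwa [degree_C_mul u0])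
        (by rwa [degree_C_mul w0]) h3 (by rw [mul_left_comm, coeff_C_mul, e1])
        (by rw [mul_left_comm, coeff_C_mul, h2, e2])
        (by simpa only [mul_left_comm] using hj.phase hu hw) fun e => hn (w / u) (by simp [hu, hw])
          (mul_left_cancel₀ (C_ne_zero.2 u0) (by
            rw [← mul_assoc (C u) (C _), ← C_mul, mul_div_cancel₀ _ u0]
            linear_combination e))
      simpa [hu, hw] using this
    have h4 : c.coeff 0 = 0 := by simpa [hp.zt] using h3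
    have h5 : a.coeff 0 = 0 := by simpa [hp.zs] using h2.symm.trans h3
  · refine absurd ?_ (hn 1 norm_one)
    rw [degree_eq_bot.1 (Nat.WithBot.lt_zero_iff.1 (degree_lt_of_coeff hc h4)),
      degree_eq_bot.1 (Nat.WithBot.lt_zero_iff.1 (degree_lt_of_coeff ha h5))]
    simp
  · obtain ⟨c, rfl⟩ := X_dvd_iff.2 h4
    obtain ⟨a, rfl⟩ := X_dvd_iff.2 h5
    rw [coeff_X_mul, coeff_X_mul]
    refine ih (fun j h h' => hy j h (by omega)) (degree_down hc) (degree_down ha)
      (Jt.down (fun e => hy 1 one_pos (by omega) (by simp [e]))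
        (by simpa only [mul_add, mul_sub, mul_left_comm] using hj))
      (fun ω h e => hn ω h (by linear_combination X * e)) rfl

theorem ne_top (h : Sg BS BT ∨ Sg BT BS) (hp : Pa BS BT) (hy : Ry y D)
    (hc : c.degree < (D + 1 : ℕ)) (ha : a.degree < (D + 1 : ℕ))
    (hj : Jt y D (BT * c + BS * a) (BT * c - BS * a))
    (hn : ∀ ω : ℂ, ‖ω‖ = 1 → BT * c ≠ C ω * (BS * a)) : ‖a.coeff D‖ ≠ ‖c.coeff D‖ := by
  rcases h with h | h
  · exact (pos h hp hy hc ha hj hn).ne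
  · refine (pos h ⟨hp.rt, hp.rs, hp.zt, hp.zs, hp.mt, hp.ms, hp.dg.symm⟩ hy ha hc ?_
      fun ω h1 e => hn ω⁻¹ (by simp [h1]) ?_).ne'
    · simpa [add_comm] using hj.smul 1 (-1)
    · rw [e, ← mul_assoc, ← C_mul, inv_mul_cancel₀ (fun e => by simp [e] at h1), C_1, one_mul]

theorem wall (hy : Ry y D) {e p : ℕ} {t : ℂ[X]} (ht : t.coeff 0 ≠ 0) (he : e + p ≤ D)
    (hj : Jt y D (X ^ e * t) v) (hn : ∀ c : ℝ, v ≠ C (I * c) * (X ^ e * t))
    (hs : (X ^ e * t).natDegree ≤ D + p) (hv : v.natDegree ≤ D + p) :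
    p ≠ 0 ∧ ∃ (c : ℝ) (l : ℂ), l ≠ 0 ∧ v - C (I * c) * (X ^ e * t) = X ^ (D + p) * C l := by
  obtain ⟨c, f, w, h1, h2, h3⟩ : ∃ (c : ℝ) (f : ℕ) (w : ℂ[X]),
      v - C (I * c) * (X ^ e * t) = X ^ f * w ∧ w.coeff 0 ≠ 0 ∧ e ≠ f := by
    by_cases h : X ^ e ∣ v
    · obtain ⟨v, rfl⟩ := h
      have h1 := low hj.1 (by omega)
      obtain ⟨f, w, h2, h3⟩ := exists_ord (sub_ne_zero.2 (hn (v.coeff 0 / t.coeff 0).im))
      refine ⟨_, f, w, h2, h3, fun h4 => h3 ?_⟩
      rw [← h4, mul_left_comm, ← mul_sub] at h2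
      have h5 : (v.coeff 0 / t.coeff 0).re = 0 := by
        rw [div_re, ← add_div, div_eq_zero_iff]
        left
        simpa [mul_comm] using h1
      rw [← mul_left_cancel₀ (pow_ne_zero _ X_ne_zero) h2, coeff_sub, coeff_C_mul, sub_eq_zero,
        ← div_eq_iff ht]
      exact Complex.ext (by simp [h5]) (by simp)
    · obtain ⟨f, w, h2, h3⟩ := exists_ord (p := v) (by simpa using hn 0)
      exact ⟨0, f, w, by simpa using h2, h3, fun h4 => h ⟨w, h4 ▸ h2⟩⟩
  have h4 := Jt.ord hy (h1 ▸ hj.shear c) ht h2 h3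
  have h5 : w ≠ 0 := fun e => h2 (by simp [e])
  have h6 : f + w.natDegree ≤ D + p := by
    rw [← natDegree_X_pow_mul f h5 |>.trans (add_comm _ _), ← h1]
    exact (natDegree_sub_le _ _).trans (max_le hv ((natDegree_C_mul_le _ _).trans hs))
  refine ⟨by omega, c, w.coeff 0, h2, ?_⟩
  rw [h1, show f = D + p by omega, ← eq_C_of_natDegree_eq_zero (by omega)]

end Pool.Agent.P.MP_32bf8a_an.SP
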