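import Pool.Agent.P.MP_32bf8a_an.SP.Jets

/-!
The limit system has no solution.
-/

open Polynomial Finset Complex
open scoped ComplexConjugate

namespace Pool.Agent.P.MP_32bf8a_an.SP

variable {ι : Type} [DecidableEq ι] {g : ι → ℝ} {S T : Finset ι} {y : ℂ} {D : ℕ} {s v : ℂ[X]}

/-- The monic polynomial with the roots `g a`, `a ∈ S`. -/
noncomputable def nd (g : ι → ℝ) (S : Finset ι) : ℂ[X] := Lagrange.nodal S fun a => (g a : ℂ)

/-- The sign of an index. -/
def sg (S : Finset ι) (a : ι) : ℂ := if a ∈ S then 1 else -1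

omit [DecidableEq ι] in
theorem pa_nd (h0 : ∀ a, g a ≠ 0) (hc : #S = #T) : Pa (nd g S) (nd g T) := by
  have e1 : ∀ S, cj (nd g S) = nd g S := fun S => by simp [nd, Lagrange.nodal, map_prod]
  have e2 : ∀ S, (nd g S).coeff 0 ≠ 0 := fun S => by
    rw [coeff_zero_eq_eval_zero]
    exact Lagrange.eval_nodal_not_at_node fun a _ e => h0 a (ofReal_eq_zero.1 e.symm)
  exact ⟨e1 S, e1 T, e2 S, e2 T, Lagrange.nodal_monic, Lagrange.nodal_monic, by
    simp only [nd, Lagrange.natDegree_nodal, hc]⟩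

omit [DecidableEq ι] in
theorem nd_dvd (hg : Function.Injective g) {f : ℂ[X]} (h : ∀ a ∈ S, f.eval (g a : ℂ) = 0) :
    ∃ c, f = nd g S * c ∧ (c ≠ 0 → f.natDegree = #S + c.natDegree) ∧
      ∀ m, f.natDegree ≤ #S + m → c.degree < (m + 1 : ℕ) := by
  obtain ⟨c, rfl⟩ : nd g S ∣ f := prod_dvd_of_coprime
    ((pairwise_coprime_X_sub_C (ofReal_injective.comp hg)).set_pairwise _)
    fun a ha => dvd_iff_isRoot.2 (h a ha)
  have e : c ≠ 0 → (nd g S * c).natDegree = #S + c.natDegree := fun hc => by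
    rw [nd, Lagrange.nodal_monic.natDegree_mul' hc, Lagrange.natDegree_nodal]
  refine ⟨c, rfl, e, fun m hm => ?_⟩
  by_cases hc : c = 0
  · simp [hc]
  · exact degree_le_natDegree.trans_lt (by have := e hc; exact_mod_cast (by omega))

theorem kappa (hg : Function.Injective g) (h0 : ∀ a, g a ≠ 0) (hd : Disjoint S T) {m : ℕ}
    (hS : #S = m + 1) (hT : #T = m + 1) (h : Sg (nd g S) (nd g T) ∨ Sg (nd g T) (nd g S)) :
    ∑ a ∈ S ∪ T, sg S a * (g a : ℂ) ^ (2 * m + 1) /
      ∏ b ∈ (S ∪ T).erase a, ((g a : ℂ) - g b) ≠ 0 := by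
  intro hk
  have hi : Set.InjOn (fun a => (g a : ℂ)) (S ∪ T : Finset ι) := (ofReal_injective.comp hg).injOn
  have hc : #(S ∪ T) = 2 * m + 1 + 1 := by rw [card_union_of_disjoint hd]; omega
  let R := Lagrange.interpolate (S ∪ T) (fun a => (g a : ℂ))
    fun a => sg S a * (g a : ℂ) ^ (2 * m + 1)
  have h1 : R.degree < #(S ∪ T) := Lagrange.degree_interpolate_lt _ hi
  have h2 : ∀ a ∈ S ∪ T, R.eval (g a : ℂ) = sg S a * (g a : ℂ) ^ (2 * m + 1) := fun a ha =>
    Lagrange.eval_interpolate_at_node _ hi ha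
  have h3 : R.coeff (m + 1 + m) = 0 := by
    rw [show m + 1 + m = #(S ∪ T) - 1 by omega, Lagrange.coeff_eq_sum hi h1, ← hk]
    exact sum_congr rfl fun a ha => by rw [h2 a ha]
  have h4 : R.natDegree ≤ m + 1 + m := natDegree_le_of_lt (by
    rwa [hc, show 2 * m + 1 = m + 1 + m by omega] at h1)
  have h5 : (X ^ (2 * m + 1) : ℂ[X]).natDegree ≤ m + 1 + m := by simp; omega
  obtain ⟨c, e1, -, d1⟩ := nd_dvd (S := T) (f := R + X ^ (2 * m + 1)) hg fun a ha => by
    simp [h2 a (mem_union_right _ ha), sg, disjoint_right.1 hd ha]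
  obtain ⟨a, e2, -, d2⟩ := nd_dvd (S := S) (f := R - X ^ (2 * m + 1)) hg fun a ha => by
    simp [h2 a (mem_union_left _ ha), sg, ha]
  have d3 := d1 m (hT ▸ (natDegree_add_le _ _).trans (max_le h4 h5))
  have d4 := d2 m (hS ▸ (natDegree_sub_le _ _).trans (max_le h4 h5))
  have hp := pa_nd (g := g) h0 (hS.trans hT.symm)
  have e3 : ‖a.coeff m‖ = ‖c.coeff m‖ := by
    rw [← top_coeff hp.mt d3, ← top_coeff hp.ms d4, ← e1, ← e2]
    simp only [nd, Lagrange.natDegree_nodal, hS, hT, coeff_add, coeff_sub, h3, coeff_X_pow]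
    rw [if_pos (by omega)]
    simp
  have e4 : nd g T * c ≠ nd g S * a := fun e => mul_ne_zero two_ne_zero
    (pow_ne_zero (2 * m + 1) (X_ne_zero (R := ℂ))) (by linear_combination e + e1 - e2)
  rcases h with h | h
  · exact (h m c a d3 d4 ⟨2, by linear_combination e2 - e1⟩).elim e4 e3.not_lt
  · exact (h m a c d4 d3 ⟨-2, by linear_combination e1 - e2⟩).elim e4.symm e3.not_gt

theorem limit (hg : Function.Injective g) (h0 : ∀ a, g a ≠ 0) (hd : Disjoint S T)
    (hc : #S = #T) (h : S.Nonempty → Sg (nd g S) (nd g T) ∨ Sg (nd g T) (nd g S)) (hy : Ry y D)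
    {μ : ℝ} (hs : s.natDegree ≤ D + #S) (hv : v.natDegree ≤ D + #S)
    (hr : ∀ a ∈ S ∪ T, s.eval (g a : ℂ) = μ * sg S a * v.eval (g a : ℂ)) (hs0 : s ≠ 0)
    (hn : ∀ c : ℝ, v ≠ C (I * c) * s) (hj : Jt y D s v)
    (ht : (conj (s.coeff (D + #S)) * v.coeff (D + #S)).re = 0)
    (hq : ∑ a ∈ S ∪ T, sg S a * (conj (v.eval (g a : ℂ)) * v.eval (g a : ℂ)) /
      (g a : ℂ) ^ (2 * D + 1) / ∏ b ∈ (S ∪ T).erase a, ((g a : ℂ) - g b) = 0) : False := by
  by_cases hm : μ = 0 ∨ S = ∅
  · have h1 : ∀ a ∈ S ∪ T, s.eval (g a : ℂ) = 0 := fun a ha => by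
      rcases hm with rfl | rfl
      · simpa using hr a ha
      · simp [card_eq_zero.1 hc.symm] at ha
    obtain ⟨z, e1, d1, -⟩ := nd_dvd hg h1
    have z0 : z ≠ 0 := fun e => hs0 (by rw [e1, e, mul_zero])
    obtain ⟨e, t, rfl, h2⟩ := exists_ord z0
    have d2 := d1 z0
    rw [natDegree_X_pow_mul e fun e => h2 (by simp [e]), card_union_of_disjoint hd] at d2
    rw [mul_left_comm] at e1
    obtain ⟨h3, c, l, h4, h5⟩ := wall hy (t := nd g (S ∪ T) * t) (e := e) (p := #S) (v := v)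
      (by simp [h2, (pa_nd h0 (rfl : #(S ∪ T) = _)).zs]) (by omega) (e1 ▸ hj) (e1 ▸ hn) (e1 ▸ hs) hv
    obtain ⟨m, h6⟩ := Nat.exists_eq_add_one_of_ne_zero h3
    refine mul_ne_zero (mul_ne_zero ((_root_.map_ne_zero conj).2 h4) h4)
      (kappa hg h0 hd h6 (hc ▸ h6) (h (card_pos.1 (by omega)))) ?_
    rw [← hq, mul_sum]
    refine sum_congr rfl fun a ha => ?_
    have h7 := congrArg (eval (g a : ℂ)) h5
    have h8 : (g a : ℂ) ≠ 0 := ofReal_ne_zero.2 (h0 a)
    simp only [← e1, eval_sub, eval_mul, h1 a ha, mul_zero, sub_zero, eval_C, eval_pow,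
      eval_X] at h7
    rw [h7, h6, ← mul_div_assoc]
    congr 1
    simp only [map_mul, map_pow, conj_ofReal]
    field_simp
    ring
  · obtain ⟨hm, hS⟩ := not_or.1 hm
    have hm' : (μ : ℂ) ≠ 0 := ofReal_ne_zero.2 hm
    obtain ⟨c, e1, -, d1⟩ := nd_dvd (S := T) (f := s + C (μ : ℂ) * v) hg fun a ha => by
      simp [hr a (mem_union_right _ ha), sg, disjoint_right.1 hd ha]
    obtain ⟨a, e2, -, d2⟩ := nd_dvd (S := S) (f := s - C (μ : ℂ) * v) hg fun a ha => by
      simp [hr a (mem_union_left _ ha), sg, ha]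
    have hv' := (natDegree_C_mul_le (μ : ℂ) v).trans hv
    have d3 := d1 D (((natDegree_add_le _ _).trans (max_le hs hv')).trans (by omega))
    have d4 := d2 D (((natDegree_sub_le _ _).trans (max_le hs hv')).trans (by omega))
    have hp := pa_nd (g := g) h0 hc
    refine ne_top (h (nonempty_iff_ne_empty.2 hS)) hp hy d3 d4 ?_ (fun ω h1 e => ?_) ?_
    · have h1 := hj.smul 2 (2 * μ)
      rw [ofReal_mul, ofReal_ofNat, C_mul, map_ofNat] at h1
      rwa [← e1, ← e2, add_add_sub_cancel, add_sub_sub_cancel, ← two_mul, ← two_mul, ← mul_assoc]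
    · rw [← e1, ← e2] at e
      by_cases h2 : ω + 1 = 0
      · rw [eq_neg_of_add_eq_zero_left h2, C_neg, C_1] at e
        exact hs0 (mul_left_cancel₀ two_ne_zero (by linear_combination e))
      · have h3 : ((ω - 1) / (ω + 1)).re = 0 := by
          have := Complex.sq_norm ω
          rw [h1, normSq_apply] at this
          rw [div_re, ← add_div, div_eq_zero_iff]
          left
          simp only [sub_re, add_re, sub_im, add_im, one_re, one_im]
          linear_combination -this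
        have h4 : (ω - 1) / (ω + 1) = I * ((ω - 1) / (ω + 1)).im :=
          Complex.ext (by simp [h3]) (by simp)
        refine hn (((ω - 1) / (ω + 1)).im / μ)
          (mul_left_cancel₀ (C_ne_zero.2 (mul_ne_zero hm' h2)) ?_)
        rw [← mul_assoc, ← C_mul, ofReal_div, ← mul_div_assoc I, ← h4,
          show μ * (ω + 1) * ((ω - 1) / (ω + 1) / μ) = ω - 1 by field_simp]
        simp only [map_mul, map_add, map_sub, map_one]
        linear_combination e
    · rw [← top_coeff hp.mt d3, ← top_coeff hp.ms d4, ← e1, ← e2,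
        ← sq_eq_sq₀ (norm_nonneg _) (norm_nonneg _), Complex.sq_norm, Complex.sq_norm]
      simp only [nd, Lagrange.natDegree_nodal, ← hc, add_comm _ D, coeff_add, coeff_sub,
        coeff_C_mul, normSq_apply]
      simp at ht ⊢
      linear_combination -4 * μ * ht

end Pool.Agent.P.MP_32bf8a_an.SP
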