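import Mathlib

/-!
Real nodes that grow very fast: the rational approximations at zero of a quotient of two products
of linear factors are nondegenerate, and the largest node decides which leading coefficient is
larger.
-/

open Filter Topology Polynomial Finset

namespace Pool.Agent.P.MP_32bf8a_an.SP

/-- The monic polynomial with the given real roots. -/
noncomputable def BB (P : Finset ℝ) : ℂ[X] := Lagrange.nodal P fun a => (a : ℂ)

/-- Nondegeneracy of one square system. -/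
def Nr (B₁ B₂ : ℂ[X]) (m : ℕ) : Prop := ∀ c a : ℂ[X], c.degree < m → a.degree < (m + 1 : ℕ) →
  X ^ (2 * m + 1) ∣ B₁ * c - B₂ * a → c = 0 ∧ a = 0

/-- The perturbed system. -/
def Pr (B₁ B₂ : ℂ[X]) (m : ℕ) (δ : ℝ) : Prop := ∀ c a : ℂ[X], c.degree < (m + 1 : ℕ) →
  a.degree < (m + 1 : ℕ) → X ^ (2 * m + 1) ∣ B₁ * c - B₂ * a →
    ‖c.coeff m‖ ≤ |δ| * ‖a.coeff m‖ → c = 0 ∧ a = 0

/-- The leading coefficient of the cofactor of `BT` is the larger one. -/
def Sg (BS BT : ℂ[X]) : Prop := ∀ (m : ℕ) (c a : ℂ[X]), c.degree < (m + 1 : ℕ) →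
  a.degree < (m + 1 : ℕ) → X ^ (2 * m + 1) ∣ BT * c - BS * a →
    BT * c = BS * a ∨ ‖a.coeff m‖ < ‖c.coeff m‖

theorem degree_lt_of_coeff {c : ℂ[X]} {m : ℕ} (h : c.degree < (m + 1 : ℕ)) (h0 : c.coeff m = 0) :
    c.degree < m := by
  rw [degree_lt_iff_coeff_zero] at h ⊢
  intro j hj
  rcases hj.eq_or_lt with rfl | hj
  exacts [h0, h j hj]

theorem ofFn_toFn {c : ℂ[X]} {m : ℕ} (h : c.degree < (m + 1 : ℕ)) :
    ofFn (m + 1) (toFn (m + 1) c) = c :=
  ofFn_comp_toFn_eq_id_of_natDegree_lt (Nat.lt_succ_of_le (natDegree_le_iff_coeff_eq_zero.2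
    fun _ hj => (degree_lt_iff_coeff_zero _ _).1 h _ hj))

theorem pert {B₁ B₂ : ℂ[X]} {m : ℕ} (h : Nr B₁ B₂ m) (E₁ E₂ : ℂ[X]) :
    ∀ᶠ δ : ℝ in 𝓝 0, Pr (B₁ + C (δ : ℂ) * E₁) (B₂ + C (δ : ℂ) * E₂) m δ := by
  let E := (Fin (m + 1) → ℂ) × (Fin (m + 1) → ℂ)
  let p₁ : E →ₗ[ℂ] ℂ[X] := ofFn (m + 1) ∘ₗ LinearMap.fst _ _ _
  let p₂ : E →ₗ[ℂ] ℂ[X] := ofFn (m + 1) ∘ₗ LinearMap.snd _ _ _
  let W : ℂ[X] → ℂ[X] → E →ₗ[ℂ] Fin (2 * m + 1) → ℂ := fun A B =>
    toFn (2 * m + 1) ∘ₗ (LinearMap.mulLeft ℂ A ∘ₗ p₁ - LinearMap.mulLeft ℂ B ∘ₗ p₂)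
  let T₀ := ((W B₁ B₂).prod (lcoeff ℂ m ∘ₗ p₁)).toContinuousLinearMap
  let T₁ := ((W E₁ E₂).prod (0 : E →ₗ[ℂ] ℂ)).toContinuousLinearMap
  let T₂ := ((0 : E →ₗ[ℂ] Fin (2 * m + 1) → ℂ).prod (lcoeff ℂ m ∘ₗ p₂)).toContinuousLinearMap
  have h0 : Function.Injective T₀ := by
    refine (injective_iff_map_eq_zero _).2 fun x hx => ?_
    have e1 : ∀ i : Fin (2 * m + 1), (B₁ * p₁ x - B₂ * p₂ x).coeff i = 0 :=
      congrFun (congrArg Prod.fst hx)
    obtain ⟨e3, e4⟩ := h (p₁ x) (p₂ x)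
      (degree_lt_of_coeff (ofFn_degree_lt _) (congrArg Prod.snd hx)) (ofFn_degree_lt _)
      (X_pow_dvd_iff.2 fun d hd => e1 ⟨d, hd⟩)
    exact Prod.ext (injective_ofFn _ (e3.trans (map_zero _).symm))
      (injective_ofFn _ (e4.trans (map_zero _).symm))
  have hc : Continuous fun z : ℂ × ℂ => T₀ + z.1 • T₁ - z.2 • T₂ := by fun_prop
  have h1 := (ContinuousLinearMap.isOpen_injective.preimage hc).mem_nhds
    (show (0 : ℂ × ℂ) ∈ _ by simpa using h0)
  obtain ⟨ε, hε, h2⟩ := Metric.mem_nhds_iff.1 h1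
  filter_upwards [Metric.ball_mem_nhds 0 hε] with δ hδ c a hc ha hd hn
  have hδ' : |δ| < ε := by simpa using hδ
  obtain ⟨θ, h3, h4⟩ : ∃ θ : ℂ, ‖θ‖ ≤ |δ| ∧ c.coeff m = θ * a.coeff m := by
    by_cases h5 : a.coeff m = 0
    · exact ⟨0, by simp, by simpa [h5] using hn⟩
    · exact ⟨c.coeff m / a.coeff m, by rwa [norm_div, div_le_iff₀ (norm_pos_iff.2 h5)],
        (div_mul_cancel₀ _ h5).symm⟩
  obtain ⟨x, rfl, rfl⟩ : ∃ x : E, p₁ x = c ∧ p₂ x = a :=
    ⟨(toFn _ c, toFn _ a), ofFn_toFn hc, ofFn_toFn ha⟩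
  have h5 := (injective_iff_map_eq_zero _).1 (h2 (show ((δ : ℂ), θ) ∈ Metric.ball 0 ε by
    simp [Prod.norm_def, hδ', h3.trans_lt hδ'])) x (by
      refine Prod.ext (funext fun i => ?_) ?_
      · have := X_pow_dvd_iff.1 hd i i.2
        simp only [add_mul, mul_assoc, coeff_sub, coeff_add, coeff_C_mul] at this
        change (B₁ * p₁ x - B₂ * p₂ x).coeff i + δ * (E₁ * p₁ x - E₂ * p₂ x).coeff i - θ * 0 = 0
        simp only [coeff_sub]
        linear_combination this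
      · change (p₁ x).coeff m + δ * 0 - θ * (p₂ x).coeff m = 0
        linear_combination h4)
  simp [h5]

theorem natDegree_BB (P : Finset ℝ) : (BB P).natDegree = #P := Lagrange.natDegree_nodal

theorem cross_zero {B₁ B₂ c a : ℂ[X]} {i j m : ℕ} (hc : c.degree < i) (ha : a.degree < j)
    (h₁ : B₁.natDegree + i ≤ m) (h₂ : B₂.natDegree + j ≤ m) (h : X ^ m ∣ B₁ * c - B₂ * a) :
    B₁ * c = B₂ * a := by
  have k : ∀ {B c : ℂ[X]} {i : ℕ}, c.degree < i → B.natDegree + i ≤ m → (B * c).degree < m := by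
    intro B c i hc h
    rw [degree_lt_iff_coeff_zero] at hc ⊢
    intro l hl
    rw [coeff_mul]
    refine sum_eq_zero fun x hx => ?_
    have := mem_antidiagonal.1 hx
    by_cases h3 : i ≤ x.2
    · rw [hc _ h3, mul_zero]
    · rw [coeff_eq_zero_of_natDegree_lt (by omega), zero_mul]
  exact sub_eq_zero.1 (eq_zero_of_dvd_of_degree_lt h (by
    simpa using (degree_sub_le _ _).trans_lt (max_lt (k hc h₁) (k ha h₂))))

theorem root_zero {P Q : Finset ℝ} (hd : Disjoint P Q) {c a : ℂ[X]} (h : BB P * c = BB Q * a)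
    (ha : a.degree < #P) : a = 0 ∧ c = 0 := by
  have h1 : a = 0 := eq_zero_of_degree_lt_of_eval_index_eq_zero P Complex.ofReal_injective.injOn
    ha fun x hx => by
      have := congrArg (eval (x : ℂ)) h
      rw [eval_mul, eval_mul, BB, Lagrange.eval_nodal_at_node hx, zero_mul] at this
      exact (mul_eq_zero.1 this.symm).resolve_left (Lagrange.eval_nodal_not_at_node fun y hy e =>
        disjoint_left.1 hd hx (Complex.ofReal_injective e ▸ hy))
  rw [h1, mul_zero] at h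
  exact ⟨h1, (mul_eq_zero.1 h).resolve_left Lagrange.nodal_ne_zero⟩

theorem nr_small {P Q : Finset ℝ} (hd : Disjoint P Q) {m : ℕ} (hP : #P ≤ m + 1) (hQ : #Q ≤ m)
    (h : m ≤ #Q ∨ m < #P) : Nr (BB P) (BB Q) m := fun c a hc ha hx => by
  have e := cross_zero hc ha (by rw [natDegree_BB]; omega) (by rw [natDegree_BB]; omega) hx
  rcases h with h | h
  · exact root_zero hd.symm e.symm (hc.trans_le (by exact_mod_cast h))
  · exact (root_zero hd e (ha.trans_le (by exact_mod_cast h))).symm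

/-- The property proved by induction on the number of nodes. -/
structure Good (G : Finset ℝ) : Prop where
  ne : 0 ∉ G
  nr : ∀ P ⊆ G, ∀ Q ⊆ G, Disjoint P Q → ∀ m, m ≤ #Q ∨ m < #P → Nr (BB P) (BB Q) m
  sg : ∀ S ⊆ G, ∀ T ⊆ G, Disjoint S T → #S = #T → S.Nonempty → Sg (BB S) (BB T) ∨ Sg (BB T) (BB S)

theorem Good.step {G : Finset ℝ} (h : Good G) : ∃ x ∉ G, Good (insert x G) := by
  have h1 : ∀ᶠ δ : ℝ in 𝓝 0, ∀ P ∈ G.powerset, ∀ Q ∈ G.powerset, ∀ m ∈ range (#G + 1),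
      Nr (BB P) (BB Q) m → Pr (BB P + C (δ : ℂ) * -(X * BB P)) (BB Q + C (δ : ℂ) * 0) m δ ∧
        Pr (BB P + C (δ : ℂ) * 0) (BB Q + C (δ : ℂ) * -(X * BB Q)) m δ := by
    simp only [eventually_all_finset]
    intro P _ Q _ m _
    by_cases h2 : Nr (BB P) (BB Q) m
    · exact ((pert h2 _ _).and (pert h2 _ _)).mono fun _ h _ => h
    · exact .of_forall fun _ h => absurd h h2
  obtain ⟨δ, h2, h3⟩ := ((infinite_of_mem_nhds _ h1).sdiff
    (insert 0 (G.image fun x => x⁻¹)).finite_toSet).nonempty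
  have h0 : δ ≠ 0 := fun e => h3 (by simp [e])
  have h0' : (δ : ℂ) ≠ 0 := by exact_mod_cast h0
  have hx : δ⁻¹ ∉ G := fun e => h3 (mem_insert_of_mem (mem_image.2 ⟨_, e, inv_inv _⟩))
  have hB : ∀ P ⊆ G, ∀ c, BB (insert δ⁻¹ P) * c =
      (BB P + C (δ : ℂ) * -(X * BB P)) * (C (-(δ : ℂ)⁻¹) * c) := fun P hP c => by
    have : C (δ : ℂ) * C (δ : ℂ)⁻¹ = 1 := by rw [← C_mul, mul_inv_cancel₀ h0', C_1]
    rw [BB, Lagrange.nodal_insert_eq_nodal fun e => hx (hP e), ← BB, C_neg, Complex.ofReal_inv]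
    linear_combination (-X * BB P * c) * this
  have hC : -(δ : ℂ)⁻¹ ≠ 0 := neg_ne_zero.2 (inv_ne_zero h0')
  have h4 : ∀ P ⊆ G, ∀ Q ⊆ G, Disjoint P Q → ∀ m, m ≤ #Q ∨ m < #P →
      Pr (BB P + C (δ : ℂ) * -(X * BB P)) (BB Q) m δ ∧
        Pr (BB P) (BB Q + C (δ : ℂ) * -(X * BB Q)) m δ := fun P hP Q hQ hd m hm => by
    have := card_le_card hP
    have := card_le_card hQ
    simpa only [mul_zero, add_zero] using h2 P (mem_powerset.2 hP) Q (mem_powerset.2 hQ) m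
      (mem_range.2 (by omega)) (h.nr P hP Q hQ hd m hm)
  have hs : ∀ S ⊆ G, ∀ T ⊆ G, Disjoint S T → #(insert δ⁻¹ S) = #T →
      Sg (BB (insert δ⁻¹ S)) (BB T) := fun S hS T hT hd hc m c a h5 h6 h7 => by
    by_cases hm : m < #T
    · refine or_iff_not_imp_right.2 fun hn => ?_
      rw [hB S hS] at h7 ⊢
      obtain ⟨e1, e2⟩ := (h4 T hT S hS hd.symm m (.inr hm)).2 c _ h5
        (by rwa [degree_C_mul hC]) h7 (by
          simpa [coeff_C_mul, ← mul_assoc, mul_inv_cancel₀ (abs_ne_zero.2 h0)] using hn)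
      rw [e1, e2, mul_zero, mul_zero]
    · exact .inl (cross_zero h5 h6 (by rw [natDegree_BB]; omega) (by rw [natDegree_BB]; omega) h7)
  have sp : ∀ P ⊆ insert δ⁻¹ G, (δ⁻¹ ∉ P ∧ P ⊆ G) ∨ ∃ P' ⊆ G, P = insert δ⁻¹ P' := fun P hP => by
    by_cases e : δ⁻¹ ∈ P
    · exact .inr ⟨P.erase δ⁻¹, subset_insert_iff.1 hP, (insert_erase e).symm⟩
    · exact .inl ⟨e, (subset_insert_iff_of_notMem e).1 hP⟩
  refine ⟨δ⁻¹, hx, by simp [h.ne, h0, eq_comm], fun P hP0 Q hQ0 hd m hm => ?_,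
    fun S hS0 T hT0 hd hc hn => ?_⟩
  · rcases sp P hP0 with ⟨-, hP⟩ | ⟨P, hP, e⟩ <;> rcases sp Q hQ0 with ⟨-, hQ⟩ | ⟨Q, hQ, e'⟩ <;>
      subst_vars
    · exact h.nr P hP Q hQ hd m hm
    · have := card_insert_of_notMem fun e => hx (hQ e)
      by_cases h5 : m ≤ #Q ∨ m < #P
      · intro c a hc ha h6
        rw [hB Q hQ] at h6
        refine ((h4 P hP Q hQ (disjoint_insert_right.1 hd).2 m h5).2 c _
          (hc.trans (by exact_mod_cast m.lt_succ_self)) (by rwa [degree_C_mul hC]) h6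
          (by rw [coeff_eq_zero_of_degree_lt hc, norm_zero]; positivity)).imp_right fun e => ?_
        exact (mul_eq_zero.1 e).resolve_left (C_ne_zero.2 hC)
      · exact nr_small hd (by omega) (by omega) hm
    · have := card_insert_of_notMem fun e => hx (hP e)
      by_cases h5 : m ≤ #Q ∨ m < #P
      · intro c a hc ha h6
        rw [hB P hP] at h6
        refine ((h4 P hP Q hQ (disjoint_insert_left.1 hd).2 m h5).1 _ a
          (by rw [degree_C_mul hC]; exact hc.trans (by exact_mod_cast m.lt_succ_self)) ha h6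
          (by rw [coeff_C_mul, coeff_eq_zero_of_degree_lt hc, mul_zero, norm_zero]
              positivity)).imp_left fun e => ?_
        exact (mul_eq_zero.1 e).resolve_left (C_ne_zero.2 hC)
      · exact nr_small hd (by omega) (by omega) hm
    · exact absurd (mem_insert_self _ _) (disjoint_insert_left.1 hd).1
  · rcases sp S hS0 with ⟨-, hS⟩ | ⟨S, hS, e⟩ <;> rcases sp T hT0 with ⟨-, hT⟩ | ⟨T, hT, e'⟩ <;>
      subst_vars
    · exact h.sg S hS T hT hd hc hn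
    · exact .inr (hs T hT S hS (disjoint_insert_right.1 hd).2.symm hc.symm)
    · exact .inl (hs S hS T hT (disjoint_insert_left.1 hd).2 hc)
    · exact absurd (mem_insert_self _ _) (disjoint_insert_left.1 hd).1

theorem exists_good (n : ℕ) : ∃ G, #G = n ∧ Good G := by
  induction n with
  | zero =>
    refine ⟨∅, rfl, notMem_empty _, fun P hP Q hQ hd m hm => ?_, fun S hS _ _ _ _ hn => ?_⟩
    · rw [subset_empty] at hP hQ
      subst hP hQ
      exact nr_small hd (by simp) (by simp) hm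
    · exact absurd (subset_empty.1 hS) hn.ne_empty
  | succ n ih =>
    obtain ⟨G, rfl, h⟩ := ih
    obtain ⟨x, hx, h'⟩ := h.step
    exact ⟨_, card_insert_of_notMem hx, h'⟩

theorem exists_nodes (n : ℕ) : ∃ g : Fin n → ℝ, Function.Injective g ∧ (∀ a, g a ≠ 0) ∧
    ∀ S T : Finset (Fin n), Disjoint S T → #S = #T → S.Nonempty →
      Sg (Lagrange.nodal S fun a => (g a : ℂ)) (Lagrange.nodal T fun a => (g a : ℂ)) ∨
        Sg (Lagrange.nodal T fun a => (g a : ℂ)) (Lagrange.nodal S fun a => (g a : ℂ)) := by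
  obtain ⟨G, hG, h⟩ := exists_good n
  let g := G.orderEmbOfFin hG
  have hg : ∀ a, g a ∈ G := G.orderEmbOfFin_mem hG
  refine ⟨g, g.injective, fun a e => h.ne (e ▸ hg a), fun S T hd hc hn => ?_⟩
  have hs : ∀ S : Finset (Fin n), S.map g.toEmbedding ⊆ G := fun S x hx => by
    obtain ⟨a, -, rfl⟩ := mem_map.1 hx
    exact hg a
  simpa [BB, Lagrange.nodal] using h.sg _ (hs S) _ (hs T) ((Finset.disjoint_map _).2 hd)
    (by simpa using hc) (by simpa using hn)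

end Pool.Agent.P.MP_32bf8a_an.SP
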