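import Pool.Agent.P.MP_32bf8a_an.SP.Limit

/-!
The compactness argument: nodes in a small cluster at zero.
-/

open Polynomial Finset Complex Filter Topology
open scoped ComplexConjugate

namespace Pool.Agent.P.MP_32bf8a_an.SP

theorem lim0 {α β : Type} [TopologicalSpace α] [TopologicalSpace β] [T1Space β] {f : α → β}
    {z : α} {b : β} (hf : ContinuousAt f z) (h : ∃ᶠ w in 𝓝 z, f w = b) : f z = b :=
  isClosed_singleton.mem_of_frequently_of_tendsto h hf

theorem cluster {α : Type} [TopologicalSpace α] {F : α → ℂ[X]} {M L : ℕ} {κ : α}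
    (hF : ∀ l, Continuous fun κ => (F κ).coeff l) (hd : ∀ κ, (F κ).natDegree < M + L)
    (h : ∃ᶠ z : ℝ × α in 𝓝 (0, κ), z.1 ≠ 0 ∧ ∀ j < M, (F z.2).eval ((z.1 * j : ℝ) : ℂ) = 0) :
    X ^ M ∣ F κ := by
  let P := nd (fun j : ℕ => (j : ℝ)) (range M)
  have hP : P.Monic := Lagrange.nodal_monic
  refine X_pow_dvd_iff.2 fun m hm => ?_
  have h1 := lim0 (f := fun z : ℝ × α => (F z.2).coeff m + ∑ i ∈ range L,
    (z.1 : ℂ) ^ (M + i - m) * ((X ^ (M + i) %ₘ P).coeff m * (F z.2).coeff (M + i))) (b := 0)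
    (((hF m).comp continuous_snd).add (continuous_finsetSum _ fun i _ => .mul (by fun_prop)
      (continuous_const.mul ((hF _).comp continuous_snd)))).continuousAt (h.mono fun ⟨τ, κ⟩ ⟨h0, hz⟩ => by
      have h0' : (τ : ℂ) ≠ 0 := ofReal_ne_zero.2 h0
      obtain ⟨c, e, -⟩ := nd_dvd (g := fun j : ℕ => (j : ℝ)) (S := range M) (f := ray τ (F κ))
        Nat.cast_injective fun j hj => by simpa [ray, eval_comp] using hz j (mem_range.1 hj)
      have e1 : modByMonicHom P (ray τ (F κ)) = 0 := (modByMonic_eq_zero_iff_dvd hP).2 ⟨c, e⟩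
      have e2 : ray τ (F κ) = ∑ l ∈ range (M + L), ((F κ).coeff l * τ ^ l) • X ^ l := by
        ext l
        simp only [coeff_ray, finsetSum_coeff, coeff_smul, coeff_X_pow, smul_eq_mul, mul_ite,
          mul_one, mul_zero, sum_ite_eq, mem_range]
        split_ifs with h
        · rfl
        · rw [coeff_eq_zero_of_natDegree_lt ((hd κ).trans_le (not_lt.1 h)), zero_mul]
      rw [e2, map_sum, sum_range_add] at e1
      have e3 := congrArg (coeff · m) e1
      have e4 : ∀ l ∈ range M, ((modByMonicHom P) (((F κ).coeff l * τ ^ l) • X ^ l)).coeff m =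
          if m = l then (F κ).coeff l * τ ^ l else 0 := fun l hl => by
        rw [map_smul, modByMonicHom_apply, (modByMonic_eq_self_iff hP).2 (by
          simpa [P, nd, Lagrange.degree_nodal] using hl)]
        simp [coeff_X_pow]
      simp only [coeff_add, finsetSum_coeff, sum_congr rfl e4, sum_ite_eq, mem_range, hm, if_true,
        coeff_zero] at e3
      refine mul_left_cancel₀ (pow_ne_zero m h0') ?_
      rw [mul_zero, ← e3, mul_add, mul_sum, mul_comm]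
      congr 1
      refine sum_congr rfl fun i _ => ?_
      rw [map_smul, modByMonicHom_apply, coeff_smul, smul_eq_mul, ← mul_assoc, ← pow_add,
        Nat.add_sub_cancel' (by omega)]
      ring)
  rwa [sum_eq_zero fun i _ => by simp [show M + i - m ≠ 0 by omega], add_zero] at h1

theorem Hm_eval (s v : ℂ[X]) (t : ℝ) : (Hm s v).eval (t : ℂ) =
    conj (s.eval (t : ℂ)) * v.eval (t : ℂ) + s.eval (t : ℂ) * conj (v.eval (t : ℂ)) := by
  have e : ∀ p : ℂ[X], (cj p).eval (t : ℂ) = conj (p.eval (t : ℂ)) := fun p => by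
    rw [cj, coe_mapRingHom, eval_map, ← eval₂_at_apply, conj_ofReal]
  simp [Hm, e]

theorem cont_Hm {α : Type} [TopologicalSpace α] {s v : α → ℂ[X]}
    (hs : ∀ l, Continuous fun κ => (s κ).coeff l) (hv : ∀ l, Continuous fun κ => (v κ).coeff l)
    (l : ℕ) : Continuous fun κ => (Hm (s κ) (v κ)).coeff l := by
  simp only [Hm, coeff_add, coeff_mul, coeff_cj]
  exact (continuous_finsetSum _ fun i _ => (continuous_conj.comp (hs _)).mul (hv _)).add
    (continuous_finsetSum _ fun i _ => (hs _).mul (continuous_conj.comp (hv _)))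

theorem natDegree_Hm {s v : ℂ[X]} {m : ℕ} (hs : s.natDegree ≤ m) (hv : v.natDegree ≤ m) :
    (Hm s v).natDegree ≤ m + m :=
  (natDegree_add_le _ _).trans (max_le (natDegree_mul_le_of_le (natDegree_map_le.trans hs) hv)
    (natDegree_mul_le_of_le hs (natDegree_map_le.trans hv)))

theorem cluster2 {α : Type} [TopologicalSpace α] {N : α → ℂ[X]} {M m : ℕ} {s v : α} {μ : ℝ}
    (hN : ∀ l, Continuous fun x => (N x).coeff l) (hd : ∀ x, (N x).natDegree ≤ m)
    (h : ∃ᶠ z : ℝ × α × α × ℝ in 𝓝 (0, s, v, μ), z.1 ≠ 0 ∧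
      ∀ j < M, (Hm (N z.2.1) (N z.2.2.1)).eval ((z.1 * j : ℝ) : ℂ) = 0) :
    X ^ M ∣ Hm (N s) (N v) :=
  cluster (L := m + m + 1) (κ := (s, v, μ)) (F := fun κ : α × α × ℝ => Hm (N κ.1) (N κ.2.1))
    (cont_Hm (fun l => (hN l).comp' continuous_fst) fun l => (hN l).comp' continuous_snd.fst)
    (fun κ => (natDegree_Hm (hd _) (hd _)).trans_lt (by omega)) h

variable {ι : Type} [DecidableEq ι] {g : ι → ℝ} {S T U : Finset ι} {y : ℂ} {D : ℕ}

theorem qeq (hg : Function.Injective g) (hd : Disjoint S T) (hc : #S = #T) {s v : ℂ[X]} {μ τ : ℝ}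
    (hs : s.natDegree ≤ D + #S) (hv : v.natDegree ≤ D + #S)
    (hr : ∀ a ∈ S ∪ T, s.eval (g a : ℂ) = μ * sg S a * v.eval (g a : ℂ)) (hm : μ ≠ 0) (hτ : τ ≠ 0)
    (hn : ∀ a, ∀ j < 2 * D + 1, g a ≠ τ * j)
    (hz : ∀ j < 2 * D + 1, (Hm s v).eval ((τ * j : ℝ) : ℂ) = 0)
    (ht : (conj (s.coeff (D + #S)) * v.coeff (D + #S)).re = 0) :
    ∑ a ∈ S ∪ T, sg S a * (conj (v.eval (g a : ℂ)) * v.eval (g a : ℂ)) /
      (∏ j ∈ range (2 * D + 1), ((g a : ℂ) - (τ * j : ℝ))) /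
        ∏ b ∈ (S ∪ T).erase a, ((g a : ℂ) - g b) = 0 := by
  rcases hS : #S with _ | m
  · simp [card_eq_zero.1 hS, card_eq_zero.1 (hc ▸ hS)]
  obtain ⟨ρ, e, -, d⟩ := nd_dvd (g := fun j : ℕ => τ * j) (S := range (2 * D + 1)) (f := Hm s v)
    ((mul_right_injective₀ hτ).comp Nat.cast_injective) fun j hj => hz j (mem_range.1 hj)
  have d1 := d (2 * m + 1) ((natDegree_Hm hs hv).trans (by rw [card_range]; omega))
  have hc' : #(S ∪ T) = 2 * m + 1 + 1 := by rw [card_union_of_disjoint hd]; omega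
  have h1 : ρ.coeff (#(S ∪ T) - 1) = 0 := by
    rw [hc', Nat.add_sub_cancel, ← top_coeff (B := nd (fun j : ℕ => τ * j) (range (2 * D + 1)))
      Lagrange.nodal_monic d1, ← e, nd, Lagrange.natDegree_nodal, card_range,
      show 2 * D + 1 + (2 * m + 1) = D + #S + (D + #S) by omega, Hm, coeff_add,
      coeff_mul_add_eq_of_natDegree_le (f := cj s) (natDegree_map_le.trans hs) hv,
      coeff_mul_add_eq_of_natDegree_le (g := cj v) hs (natDegree_map_le.trans hv)]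
    refine Complex.ext ?_ (by simp; ring)
    simp at ht ⊢
    linarith
  rw [Lagrange.coeff_eq_sum (ofReal_injective.comp hg).injOn (hc' ▸ d1)] at h1
  refine mul_left_cancel₀ (mul_ne_zero two_ne_zero (ofReal_ne_zero.2 hm)) ?_
  rw [mul_zero, ← h1, mul_sum]
  refine sum_congr rfl fun a ha => ?_
  have h2 := Hm_eval s v (g a)
  have h3 : conj (sg S a) = sg S a := by unfold sg; split_ifs <;> simp
  rw [hr a ha, e, eval_mul, nd, Lagrange.eval_nodal, map_mul, map_mul, conj_ofReal, h3] at h2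
  rw [← mul_div_assoc, ← mul_div_assoc, Function.comp_apply]
  congr 1
  rw [div_eq_iff (prod_ne_zero_iff.2 fun j hj => sub_ne_zero.2 fun e =>
    hn a j (mem_range.1 hj) (ofReal_injective e))]
  linear_combination -h2

/-- The numerator of the rational function with residues `x a` at the poles `g a`, `a ∈ U`. -/
noncomputable def Nn (g : ι → ℝ) (U : Finset ι) : (ι → ℂ) →ₗ[ℂ] ℂ[X] :=
  ∑ a ∈ U, (LinearMap.proj a).smulRight (nd g (U.erase a))

theorem Nn_apply (x : ι → ℂ) : Nn g U x = ∑ a ∈ U, C (x a) * nd g (U.erase a) := by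
  simp [Nn, smul_eq_C_mul]

theorem Nn_node (x : ι → ℂ) {a : ι} (ha : a ∈ U) :
    (Nn g U x).eval (g a : ℂ) = x a * (nd g (U.erase a)).eval (g a : ℂ) := by
  rw [Nn_apply, eval_finsetSum, sum_eq_single_of_mem a ha fun b _ hb => by
    rw [eval_mul, nd, Lagrange.eval_nodal_at_node (v := fun a => (g a : ℂ))
      (mem_erase.2 ⟨hb.symm, ha⟩), mul_zero]]
  simp

theorem Nn_zero (hg : Function.Injective g) {x : ι → ℂ} (h : Nn g U x = 0) (hx : ∀ a ∉ U, x a = 0) :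
    x = 0 := funext fun a => by
  by_cases ha : a ∈ U
  · have := Nn_node (g := g) x ha
    rw [h, eval_zero] at this
    exact (mul_eq_zero.1 this.symm).resolve_right (Lagrange.eval_nodal_not_at_node fun b hb e =>
      (mem_erase.1 hb).1 (hg (ofReal_injective e)).symm)
  · exact hx a ha

theorem Nn_deg (x : ι → ℂ) {m : ℕ} (h : #U = m + 1) :
    (Nn g U x).natDegree ≤ m ∧ (Nn g U x).coeff m = ∑ a ∈ U, x a := by
  have e : ∀ a ∈ U, (nd g (U.erase a)).natDegree = m := fun a ha => by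
    rw [nd, Lagrange.natDegree_nodal, card_erase_of_mem ha, h, Nat.add_sub_cancel]
  rw [Nn_apply, finsetSum_coeff]
  exact ⟨natDegree_sum_le_of_forall_le _ _ fun a ha => (natDegree_C_mul_le _ _).trans (e a ha).le,
    sum_congr rfl fun a ha => by
      rw [coeff_C_mul, ← e a ha, nd, Monic.coeff_natDegree Lagrange.nodal_monic, mul_one]⟩

theorem Nn_eval (x : ι → ℂ) {z : ℂ} (hz : ∀ a, z ≠ g a) :
    (Nn g U x).eval z = (nd g U).eval z * ∑ a ∈ U, (z - g a)⁻¹ * x a := by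
  rw [Nn_apply, eval_finsetSum, mul_sum]
  refine sum_congr rfl fun a ha => ?_
  have := sub_ne_zero.2 (hz a)
  rw [nd, nd, Lagrange.nodal_eq_mul_nodal_erase ha]
  simp only [eval_mul, eval_C, eval_sub, eval_X]
  field_simp

variable [Fintype ι]

/-- What a collision with supports `S` and `T` gives. -/
structure Cond (g : ι → ℝ) (y : ℂ) (D : ℕ) (S T : Finset ι) (τ : ℝ) (s v : ι → ℂ) (μ : ℝ) :
    Prop where
  t0 : τ ≠ 0
  m0 : μ ≠ 0
  ne : ∀ a, ∀ j < 2 * D + 1, g a ≠ τ * j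
  s0 : ∀ a ∉ S ∪ T, s a = 0
  v0 : ∀ a ∉ S ∪ T, v a = 0
  rel : ∀ a ∈ S \ T ∪ T \ S, s a - μ * sg (S \ T) a * v a = 0
  im : (∑ a, conj (s a) * v a).im = 0
  r1 : ∀ j < 2 * D + 1, (Hm (Nn g (S ∪ T) s) (Nn g (S ∪ T) v)).eval ((τ * j : ℝ) : ℂ) = 0
  r2 : ∀ j < 2 * D,
    (Hm (ray y (Nn g (S ∪ T) s)) (ray y (Nn g (S ∪ T) v))).eval ((τ * j : ℝ) : ℂ) = 0
  top : (conj (∑ a ∈ S ∪ T, s a) * ∑ a ∈ S ∪ T, v a).re = 0

theorem small (hg : Function.Injective g) (h0 : ∀ a, g a ≠ 0)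
    (h : ∀ S T : Finset ι, Disjoint S T → #S = #T → S.Nonempty →
      Sg (nd g S) (nd g T) ∨ Sg (nd g T) (nd g S)) (hy : Ry y D) (hS : #S = D + 1)
    (hT : #T = D + 1) : ∀ᶠ τ in 𝓝 (0 : ℝ), ∀ κ ∈ Metric.sphere (0 : ι → ℂ) 1 ×ˢ
      Metric.sphere (0 : ι → ℂ) 1 ×ˢ Set.Icc (0 : ℝ) 1, ¬ Cond g y D S T τ κ.1 κ.2.1 κ.2.2 := by
  refine ((isCompact_sphere _ _).prod ((isCompact_sphere _ _).prod
    isCompact_Icc)).eventually_forall_of_forall_eventually fun ⟨s, v, μ⟩ ⟨hs, hv, _⟩ => ?_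
  by_contra hf
  replace hf : ∃ᶠ z : ℝ × (ι → ℂ) × (ι → ℂ) × ℝ in 𝓝 (0, s, v, μ),
    Cond g y D S T z.1 z.2.1 z.2.2.1 z.2.2.2 := by
    simpa only [not_eventually, not_not] using hf
  have hd : Disjoint (S \ T) (T \ S) := disjoint_sdiff_sdiff
  have hc : #(S \ T) = #(T \ S) := card_sdiff_comm (hS.trans hT.symm)
  have hU : #(S ∪ T) = D + #(S \ T) + 1 := by rw [← card_sdiff_add_card]; omega
  have hY : S \ T ∪ T \ S ⊆ S ∪ T := union_subset_union sdiff_subset sdiff_subset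
  have hN := fun x => Nn_deg (g := g) x hU
  have hr : ∀ {s v : ι → ℂ} {μ : ℝ}, (∀ a ∈ S \ T ∪ T \ S, s a - μ * sg (S \ T) a * v a = 0) →
      ∀ a ∈ S \ T ∪ T \ S, (Nn g (S ∪ T) s).eval (g a : ℂ) =
        μ * sg (S \ T) a * (Nn g (S ∪ T) v).eval (g a : ℂ) := fun h a ha => by
    rw [Nn_node _ (hY ha), Nn_node _ (hY ha), sub_eq_zero.1 (h a ha), mul_assoc]
  have c1 : ∀ l, Continuous fun x => (Nn g (S ∪ T) x).coeff l := fun l =>
    (lcoeff ℂ l ∘ₗ Nn g (S ∪ T)).continuous_of_finiteDimensional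
  have c2 : ∀ z, Continuous fun x => (Nn g (S ∪ T) x).eval z := fun z =>
    (leval z ∘ₗ Nn g (S ∪ T)).continuous_of_finiteDimensional
  have s0 : ∀ a ∉ S ∪ T, s a = 0 := fun a ha =>
    lim0 (f := fun z : ℝ × (ι → ℂ) × (ι → ℂ) × ℝ => z.2.1 a) (by fun_prop)
      (hf.mono fun _ h => h.s0 a ha)
  have v0 : ∀ a ∉ S ∪ T, v a = 0 := fun a ha =>
    lim0 (f := fun z : ℝ × (ι → ℂ) × (ι → ℂ) × ℝ => z.2.2.1 a) (by fun_prop)
      (hf.mono fun _ h => h.v0 a ha)
  have s1 : s ≠ 0 := fun e => by simp [e] at hs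
  refine limit hg h0 hd hc (h _ _ hd hc) hy (hN s).1 (hN v).1 (μ := μ) (hr fun a ha =>
    lim0 (f := fun z : ℝ × (ι → ℂ) × (ι → ℂ) × ℝ =>
      z.2.1 a - z.2.2.2 * sg (S \ T) a * z.2.2.1 a) (by fun_prop) (hf.mono fun _ h => h.rel a ha))
    (fun e => s1 (Nn_zero hg e s0)) (fun c e => ?_) ⟨?_, ?_⟩ ?_ ?_
  · have e1 : v - (I * c) • s = 0 := Nn_zero (U := S ∪ T) hg
      (by rw [map_sub, map_smul, e, smul_eq_C_mul, sub_self]) fun a ha => by simp [s0 a ha, v0 a ha]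
    have e2 : (∑ a, conj (s a) * v a).im = 0 :=
      lim0 (f := fun z : ℝ × (ι → ℂ) × (ι → ℂ) × ℝ => (∑ a, conj (z.2.1 a) * z.2.2.1 a).im)
        (by fun_prop) (hf.mono fun _ h => h.im)
    obtain rfl := sub_eq_zero.1 e1
    have e3 : c * ∑ a, normSq (s a) = 0 := by
      rw [← e2, im_sum, mul_sum]
      exact sum_congr rfl fun a _ => by simp [normSq_apply]; ring
    rcases mul_eq_zero.1 e3 with rfl | e3
    · simp at hv
    · exact s1 (funext fun a => normSq_eq_zero.1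
        ((sum_eq_zero_iff_of_nonneg fun a _ => normSq_nonneg _).1 e3 a (mem_univ a)))
  · exact cluster2 c1 (fun x => (hN x).1) (hf.mono fun _ h => ⟨h.t0, h.r1⟩)
  · exact cluster2 (N := fun x => ray y (Nn g (S ∪ T) x)) (m := D + #(S \ T))
      (fun l => by simp only [coeff_ray]; exact (c1 l).mul continuous_const)
      (fun x => natDegree_le_iff_coeff_eq_zero.2 fun j hj => by
        rw [coeff_ray, coeff_eq_zero_of_natDegree_lt ((hN x).1.trans_lt hj), zero_mul])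
      (hf.mono fun _ h => ⟨h.t0, h.r2⟩)
  · rw [(hN s).2, (hN v).2]
    exact lim0 (f := fun z : ℝ × (ι → ℂ) × (ι → ℂ) × ℝ =>
      (conj (∑ a ∈ S ∪ T, z.2.1 a) * ∑ a ∈ S ∪ T, z.2.2.1 a).re) (by fun_prop)
      (hf.mono fun _ h => h.top)
  · have c4 : ∀ z, Continuous fun w : ℝ × (ι → ℂ) × (ι → ℂ) × ℝ =>
        (Nn g (S ∪ T) w.2.2.1).eval z := fun z => (c2 z).comp continuous_snd.snd.fst
    have := lim0 (tendsto_finsetSum _ fun a _ => ?_) (hf.mono fun z h =>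
      qeq hg hd hc (hN z.2.1).1 (hN z.2.2.1).1 (hr h.rel) h.m0 h.t0 h.ne h.r1
        (by rw [(hN _).2, (hN _).2]; exact h.top))
    · simpa using this
    · exact (ContinuousAt.div (continuous_const.mul ((continuous_conj.comp (c4 _)).mul
        (c4 _))).continuousAt (by fun_prop) (by simp [h0 a])).div_const _

end Pool.Agent.P.MP_32bf8a_an.SP
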